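import Pool.Agent.Helper50.CSB.Defs

/-!
# The weak step lemma, elements of length at most three
-/

namespace H50R

open H45C Equiv MvPolynomial

variable {m : ℕ}

/-- a nonzero derivative at an ascent cannot be a Schubert class -/
private lemma not_asc (v : WG m) (P : Pol m) (d : ℕ) (hv : inv v = d + 1)
    (hP : P.IsHomogeneous (d + 1)) (k : Fin m) (hk : v k.castSucc < v k.succ) :
    ¬ IsSchub (v * sg k) (dd1 k P) := by
  intro h
  obtain ⟨l, hl, hl2⟩ := exists_word (v * sg k)
  have h1 := inv_mul_sg_of_asc v k hk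
  have h2 := h l
  rw [if_pos ⟨hl, hl2⟩, constantCoeff_dd_of_ne l (dd1 k P) d (dd1_homog k P d hP) (by omega)] at h2
  exact zero_ne_one h2

theorem isSchub_weak (v : WG m) (P : Pol m) (d : ℕ) (hv : inv v = d + 1)
    (hP : P.IsHomogeneous (d + 1))
    (h : ∀ k : Fin m, dd1 k P = 0 ∨ IsSchub (v * sg k) (dd1 k P))
    (h0 : ∃ k : Fin m, IsSchub (v * sg k) (dd1 k P)) : IsSchub v P := by
  obtain ⟨k₀, hk₀⟩ := h0
  have hd₀ : v k₀.succ < v k₀.castSucc := by
    rcases lt_or_gt_of_ne (fun h => castSucc_ne_succ k₀ (v.injective h)) with h1 | h1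
    · exact absurd hk₀ (not_asc v P d hv hP k₀ h1)
    · exact h1
  -- the value at `v`
  have key : ∀ (k : Fin m) (l : List (Fin m)), wp l = v * sg k → l.length = d →
      constantCoeff (dd l (dd1 k P)) = act m P (bas v⁻¹) 1 := by
    intro k l hl hl2
    have h1 := constantCoeff_dd (k :: l) P (by rw [List.length_cons, hl2]; exact hP)
    have h2 : wp (k :: l) = v := by rw [wp, hl, mul_assoc, sg_mul_self, mul_one]
    rw [h2] at h1
    exact h1
  have hone : act m P (bas v⁻¹) 1 = 1 := by
    obtain ⟨l, hl, hl2⟩ := exists_word (v * sg k₀)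
    have h1 := inv_mul_sg_of_desc v k₀ hd₀
    rw [← key k₀ l hl (by omega), hk₀ l, if_pos ⟨hl, hl2⟩]
  refine isSchub_step v P (fun k hk => ?_) (fun k hk => ?_) ?_
  · rcases h k with h1 | h1
    · exfalso
      obtain ⟨l, hl, hl2⟩ := exists_word (v * sg k)
      have h2 := inv_mul_sg_of_desc v k hk
      have h3 := key k l hl (by omega)
      rw [h1, dd_zero, map_zero, hone] at h3
      exact zero_ne_one h3
    · exact h1
  · exact (h k).resolve_right (not_asc v P d hv hP k hk)
  · rw [if_neg fun h1 => by rw [h1, inv_one] at hv; omega]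
    exact constantCoeff_dd_of_ne [] P (d + 1) hP (by simp)

lemma sg_of_ne (k : Fin m) (x : Fin (m + 1)) (h1 : (x : ℕ) ≠ k) (h2 : (x : ℕ) ≠ k + 1) :
    sg k x = x :=
  swap_apply_of_ne_of_ne (fun h => h1 (by rw [h]; simp)) (fun h => h2 (by rw [h]; simp))

lemma sg_conj (a b : Fin m) :
    sg a * sg b * sg a = swap (sg a b.castSucc) (sg a b.succ) := by
  have h1 : sg a * sg b = swap (sg a b.castSucc) (sg a b.succ) * sg a :=
    Equiv.mul_swap_eq_swap_mul (sg a) _ _
  rw [h1, mul_assoc, sg_mul_self, mul_one]

lemma sg_conj_adj (a b : Fin m) (h : (b : ℕ) = a + 1) :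
    sg a * sg b * sg a = swap a.castSucc b.succ := by
  have h1 : b.castSucc = a.succ := Fin.ext (by simp [h])
  have h2 : sg a a.succ = a.castSucc := swap_apply_right _ _
  rw [sg_conj, h1, h2, sg_of_ne a b.succ (by simp [h]; omega) (by simp [h])]

lemma sg_conj_adj' (a b : Fin m) (h : (b : ℕ) = a + 1) :
    sg b * sg a * sg b = swap a.castSucc b.succ := by
  have h1 : a.succ = b.castSucc := Fin.ext (by simp [h])
  have h2 : sg b b.castSucc = b.succ := swap_apply_left _ _
  rw [sg_conj, h1, h2, sg_of_ne b a.castSucc (by simp [h]) (by simp [h]; omega)]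

lemma sg_conj_far (a b : Fin m) (h : (b : ℕ) + 1 < a ∨ (a : ℕ) + 1 < b) :
    sg a * sg b * sg a = sg b := by
  rw [sg_conj, sg_of_ne a b.castSucc (by simp; omega) (by simp; omega),
    sg_of_ne a b.succ (by simp; omega) (by simp; omega)]
  rfl

lemma sn_of_lt {i : ℕ} (hi : i < m) : sn m i = sg ⟨i, hi⟩ := dif_pos hi

theorem len_three (v : WG m) (hv : inv v ≤ 3) : (∃ l : List (Fin m), l.Nodup ∧ wp l = v) ∨
    ∃ i : ℕ, i + 1 < m ∧ v = sn m i * sn m (i + 1) * sn m i := by
  obtain ⟨l, hl, hl2⟩ := exists_word v
  have hred : ∀ l' : List (Fin m), wp l' = v → l.length ≤ l'.length := fun l' h => by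
    have := inv_wp_le l'
    rw [h] at this
    omega
  match l, hl, hl2 with
  | [], hl, hl2 => exact .inl ⟨[], List.nodup_nil, hl⟩
  | [a], hl, hl2 => exact .inl ⟨[a], by simp, hl⟩
  | [a, b], hl, hl2 =>
    refine .inl ⟨[a, b], ?_, hl⟩
    simp only [List.nodup_cons, List.mem_singleton, List.not_mem_nil, not_false_eq_true,
      List.nodup_nil, and_true]
    rintro rfl
    have h1 : wp ([] : List (Fin m)) = v := by
      rw [← hl]
      change (1 : WG m) = 1 * sg a * sg a
      rw [one_mul, sg_mul_self]
    have := hred [] h1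
    simp at this
  | [a, b, c], hl, hl2 =>
    have hl' : sg c * sg b * sg a = v := by rw [← hl, wp, wp, wp, wp, one_mul]
    have hab : a ≠ b := by
      rintro rfl
      have h1 : wp [c] = v := by
        rw [← hl', wp, wp, one_mul, mul_assoc, sg_mul_self, mul_one]
      have := hred [c] h1
      simp at this
    have hbc : b ≠ c := by
      rintro rfl
      have h1 : wp [a] = v := by
        rw [← hl', wp, wp, one_mul, sg_mul_self, one_mul]
      have := hred [a] h1
      simp at this
    by_cases hac : a = c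
    · subst hac
      have hab' : (a : ℕ) ≠ b := fun h => hab (Fin.ext h)
      by_cases h1 : (b : ℕ) = a + 1
      · refine .inr ⟨a, by have := b.2; omega, ?_⟩
        rw [sn_of_lt a.2, sn_of_lt (show (a : ℕ) + 1 < m by have := b.2; omega), ← hl']
        congr 3
        exact Fin.ext h1
      · by_cases h2 : (a : ℕ) = b + 1
        · refine .inr ⟨b, by have := a.2; omega, ?_⟩
          have h3 : (⟨(b : ℕ) + 1, by have := a.2; omega⟩ : Fin m) = a := Fin.ext h2.symm
          rw [sn_of_lt b.2, sn_of_lt (show (b : ℕ) + 1 < m by have := a.2; omega), ← hl', h3,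
            sg_conj_adj' b a h2]
          exact (sg_conj_adj b a h2).symm
        · exfalso
          have h3 : wp [b] = v := by
            rw [← hl', wp, wp, one_mul, sg_conj_far a b (by omega)]
          have := hred [b] h3
          simp at this
    · refine .inl ⟨[a, b, c], ?_, hl⟩
      simp only [List.nodup_cons, List.mem_cons, List.not_mem_nil,
        not_false_eq_true, List.nodup_nil, and_true, not_or]
      simp [hab, hac, hbc]
  | _ :: _ :: _ :: _ :: l, hl, hl2 =>
    simp only [List.length_cons] at hl2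
    omega

theorem isSchub_iji (i : ℕ) (hi : i + 1 < m) :
    IsSchub (sn m i * sn m (i + 1) * sn m i)
      (hz m (i + 1) 2 * hz m (i + 2) 1 - hz m (i + 1) 3) := by
  classical
  let a : Fin m := ⟨i, by omega⟩
  let b : Fin m := ⟨i + 1, hi⟩
  have hv : sn m i * sn m (i + 1) * sn m i = swap a.castSucc b.succ := by
    rw [sn_of_lt (show i < m by omega), sn_of_lt hi]
    exact sg_conj_adj a b rfl
  rw [hv]
  have ha : ((a.castSucc : Fin (m + 1)) : ℕ) = i := rfl
  have hb : ((b.succ : Fin (m + 1)) : ℕ) = i + 2 := rfl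
  have hval : ∀ x : Fin (m + 1), ((swap a.castSucc b.succ x : Fin (m + 1)) : ℕ) =
      if (x : ℕ) = i then i + 2 else if (x : ℕ) = i + 2 then i else x := by
    intro x
    by_cases h1 : (x : ℕ) = i
    · rw [if_pos h1, show x = a.castSucc from Fin.ext h1, swap_apply_left, hb]
    · by_cases h2 : (x : ℕ) = i + 2
      · rw [if_neg h1, if_pos h2, show x = b.succ from Fin.ext h2, swap_apply_right, ha]
      · rw [if_neg h1, if_neg h2, swap_apply_of_ne_of_ne (fun h => h1 (by rw [h, ha]))
          (fun h => h2 (by rw [h, hb]))]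
  have hcode : ∀ x : Fin (m + 1), code (swap a.castSucc b.succ) x =
      if (x : ℕ) = i then 2 else if (x : ℕ) = i + 1 then 1 else 0 := by
    intro x
    have h0 : code (swap a.castSucc b.succ) x =
        ((Finset.range (m + 1)).filter fun y : ℕ => (x : ℕ) < y ∧
          (if y = i then i + 2 else if y = i + 2 then i else y) <
            (if (x : ℕ) = i then i + 2 else if (x : ℕ) = i + 2 then i else x)).card := by
      unfold code
      refine Finset.card_bij (fun y _ => (y : ℕ)) ?_ ?_ ?_
      · intro y hy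
        simp only [Finset.mem_filter, Finset.mem_univ, true_and, Fin.lt_def, hval] at hy
        simp only [Finset.mem_filter, Finset.mem_range]
        exact ⟨y.2, hy⟩
      · intro y _ z _ h
        exact Fin.ext h
      · intro y hy
        simp only [Finset.mem_filter, Finset.mem_range] at hy
        refine ⟨⟨y, hy.1⟩, ?_, rfl⟩
        simp only [Finset.mem_filter, Finset.mem_univ, true_and, Fin.lt_def, hval]
        exact hy.2
    rw [h0]
    by_cases h1 : (x : ℕ) = i
    · refine Eq.trans ?_ (if_pos h1).symm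
      have h2 : ((Finset.range (m + 1)).filter fun y : ℕ => (x : ℕ) < y ∧
          (if y = i then i + 2 else if y = i + 2 then i else y) <
            (if (x : ℕ) = i then i + 2 else if (x : ℕ) = i + 2 then i else x)) =
          {i + 1, i + 2} := by
        ext y
        simp only [Finset.mem_filter, Finset.mem_range, Finset.mem_insert,
          Finset.mem_singleton]
        rw [if_pos h1]
        split_ifs <;> omega
      rw [h2, Finset.card_pair (by omega)]
    · by_cases h3 : (x : ℕ) = i + 1
      · refine Eq.trans ?_ ((if_neg h1).trans (if_pos h3)).symm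
        have h2 : ((Finset.range (m + 1)).filter fun y : ℕ => (x : ℕ) < y ∧
            (if y = i then i + 2 else if y = i + 2 then i else y) <
              (if (x : ℕ) = i then i + 2 else if (x : ℕ) = i + 2 then i else x)) =
            {i + 2} := by
          ext y
          simp only [Finset.mem_filter, Finset.mem_range, Finset.mem_singleton]
          rw [if_neg h1, if_neg (show ¬ (x : ℕ) = i + 2 by omega)]
          split_ifs <;> omega
        rw [h2, Finset.card_singleton]
      · refine Eq.trans ?_ ((if_neg h1).trans (if_neg h3)).symm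
        rw [Finset.card_eq_zero, Finset.filter_eq_empty_iff]
        intro y _
        rw [if_neg h1]
        split_ifs <;> omega
  have hi0 : ((⟨i, by omega⟩ : Fin (m + 1)) : ℕ) = i := rfl
  have h1 := isSchub_p2 (swap a.castSucc b.succ) (⟨i, by omega⟩ : Fin (m + 1))
    (⟨i + 1, by omega⟩ : Fin (m + 1)) (by simp [Fin.lt_def]) (fun x hx hx' => by
      rw [hcode, if_neg fun h => hx (Fin.ext h), if_neg fun h => hx' (Fin.ext h)])
  rw [hcode, hcode, if_pos rfl, if_neg (by simp), if_pos rfl] at h1
  have h2 : p2 m (i + 1) (i + 1 + 1) 2 1 = hz m (i + 1) 2 * hz m (i + 2) 1 - hz m (i + 1) 3 := by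
    have e1 : max (((2 : ℕ) : ℤ) + 1) (((1 : ℕ) : ℤ) + (((i + 1 + 1 : ℕ) : ℤ) - ((i + 1 : ℕ) : ℤ))) = 3 := by
      push_cast
      have : (1 : ℤ) + ((i : ℤ) + 1 + 1 - (i + 1)) = 2 := by ring
      rw [this]
      norm_num
    unfold p2
    rw [e1]
    norm_num
    rw [hz_zero_right, mul_one]
  rw [← h2]
  exact h1

end H50R
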