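import Pool.Agent.Helper82.CSB.C4c

/-!
# The polynomials of the codes (3,1,1) and (1,3,1) (piece C4, part)
-/

namespace H50R

open H45C Equiv MvPolynomial

variable {m : ℕ}

/-! ### the polynomials -/

/-- the polynomial with two blocks -/
noncomputable def r2 (m p q a : ℕ) : Pol m := hz m p a * hz m q 1 - hz m p ((a : ℤ) + 1)

/-- the polynomial with three blocks -/
noncomputable def r3 (m p q r a : ℕ) : Pol m :=
  hz m p a * (hz m q 1 * hz m r 1 - hz m q 2) -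
    (hz m p ((a : ℤ) + 1) * hz m r 1 - hz m p ((a : ℤ) + 2))

lemma r2_homog (p q a : ℕ) : (r2 m p q a).IsHomogeneous (a + 1) := by
  have h1 := hz_homog (m := m) p a
  have h2 := hz_homog (m := m) q 1
  have h3 := hz_homog (m := m) p (a + 1)
  push_cast at h2 h3
  exact (h1.mul h2).sub h3

lemma r3_homog (p q r a : ℕ) : (r3 m p q r a).IsHomogeneous (a + 2) := by
  have h1 := hz_homog (m := m) p a
  have h2 := hz_homog (m := m) q 1
  have h3 := hz_homog (m := m) r 1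
  have h4 := hz_homog (m := m) q 2
  have h5 := hz_homog (m := m) p (a + 1)
  have h6 := hz_homog (m := m) p (a + 2)
  push_cast at h2 h3 h4 h5 h6
  exact (h1.mul ((h2.mul h3).sub h4)).sub ((h5.mul h3).sub h6)

lemma dd1_r2_of_ne (k : Fin m) {p q a : ℕ} (hp : p ≠ (k : ℕ) + 1) (hq : q ≠ (k : ℕ) + 1) :
    dd1 k (r2 m p q a) = 0 := by
  apply dd1_eq_zero_of_inv
  unfold r2
  rw [map_sub, map_mul, pact_hz k p _ hp, pact_hz k q _ hq, pact_hz k p _ hp]

lemma dd1_r2_p (k : Fin m) {q a : ℕ} (hq : q ≠ (k : ℕ) + 1) :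
    dd1 k (r2 m ((k : ℕ) + 1) q (a + 1)) = r2 m ((k : ℕ) + 2) q a := by
  unfold r2
  rw [dd1_sub, mul_comm, dd1_mul_of_inv k _ _ (pact_hz k q _ hq), dd1_hz, dd1_hz, mul_comm]
  congr 3 <;> push_cast <;> ring

lemma dd1_r2_q (k : Fin m) {p a : ℕ} (hp : p ≠ (k : ℕ) + 1) :
    dd1 k (r2 m p ((k : ℕ) + 1) a) = hz m p a := by
  unfold r2
  rw [dd1_sub, dd1_mul_of_inv k _ _ (pact_hz k p _ hp), dd1_hz, sub_self, hz_zero_right,
    dd1_eq_zero_of_inv k _ (pact_hz k p _ hp), mul_one, sub_zero]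

lemma dd1_r3_of_ne (k : Fin m) {p q r a : ℕ} (hp : p ≠ (k : ℕ) + 1) (hq : q ≠ (k : ℕ) + 1)
    (hr : r ≠ (k : ℕ) + 1) : dd1 k (r3 m p q r a) = 0 := by
  apply dd1_eq_zero_of_inv
  unfold r3
  simp only [map_sub, map_mul, pact_hz k p _ hp, pact_hz k q _ hq, pact_hz k r _ hr]

lemma dd1_r3_p (k : Fin m) {q r a : ℕ} (hq : q ≠ (k : ℕ) + 1) (hr : r ≠ (k : ℕ) + 1) :
    dd1 k (r3 m ((k : ℕ) + 1) q r (a + 1)) = r3 m ((k : ℕ) + 2) q r a := by
  unfold r3
  have e1 : pact (sg k) (hz m q 1 * hz m r 1 - hz m q 2) = hz m q 1 * hz m r 1 - hz m q 2 := by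
    simp only [map_sub, map_mul, pact_hz k q _ hq, pact_hz k r _ hr]
  rw [dd1_sub, mul_comm, dd1_mul_of_inv k _ _ e1, dd1_hz, dd1_sub, mul_comm (hz m ((k : ℕ) + 1) (((a + 1 : ℕ) : ℤ) + 1)) (hz m r 1),
    dd1_mul_of_inv k _ _ (pact_hz k r _ hr), dd1_hz, dd1_hz]
  have e2 : ((a + 1 : ℕ) : ℤ) - 1 = a := by push_cast; ring
  have e3 : ((a + 1 : ℕ) : ℤ) + 1 - 1 = (a : ℤ) + 1 := by push_cast; ring
  have e4 : ((a + 1 : ℕ) : ℤ) + 2 - 1 = (a : ℤ) + 2 := by push_cast; ring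
  rw [e2, e3, e4]
  ring

lemma dd1_r3_r (k : Fin m) {p q a : ℕ} (hp : p ≠ (k : ℕ) + 1) (hq : q ≠ (k : ℕ) + 1) :
    dd1 k (r3 m p q ((k : ℕ) + 1) a) = r2 m p q a := by
  unfold r3 r2
  rw [dd1_sub, dd1_mul_of_inv k _ _ (pact_hz k p _ hp), dd1_sub, dd1_sub,
    dd1_mul_of_inv k _ _ (pact_hz k q _ hq), dd1_mul_of_inv k _ _ (pact_hz k p _ hp), dd1_hz,
    sub_self, hz_zero_right, dd1_eq_zero_of_inv k _ (pact_hz k q _ hq),
    dd1_eq_zero_of_inv k _ (pact_hz k p _ hp)]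
  ring

lemma dd1_r3_q (k : Fin m) {p a : ℕ} (hp : p ≠ (k : ℕ) + 1) :
    dd1 k (r3 m p ((k : ℕ) + 1) ((k : ℕ) + 2) a) = 0 := by
  have hr : (k : ℕ) + 2 ≠ (k : ℕ) + 1 := by omega
  unfold r3
  rw [dd1_sub, dd1_mul_of_inv k _ _ (pact_hz k p _ hp), dd1_sub, dd1_sub,
    mul_comm (hz m ((k : ℕ) + 1) 1), dd1_mul_of_inv k _ _ (pact_hz k _ _ hr),
    dd1_mul_of_inv k _ _ (pact_hz k p _ hp), dd1_hz, dd1_hz, sub_self, hz_zero_right,
    dd1_eq_zero_of_inv k _ (pact_hz k _ _ hr), dd1_eq_zero_of_inv k _ (pact_hz k p _ hp)]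
  norm_num

/-- the case of two equal blocks -/
lemma dd1_r3_pq (k : Fin m) {a : ℕ} :
    dd1 k (r3 m ((k : ℕ) + 1) ((k : ℕ) + 1) ((k : ℕ) + 2) (a + 1)) =
      hz m k 1 * (hz m ((k : ℕ) + 1) 1 * hz m ((k : ℕ) + 2) a - hz m ((k : ℕ) + 1) ((a : ℤ) + 1)) -
        (hz m k 2 * hz m ((k : ℕ) + 2) a - hz m k ((a : ℤ) + 2)) := by
  have hA : ∀ j : ℤ, pact (sg k) (hz m k j) = hz m k j := fun j => pact_hz k k j (by omega)
  have hC : ∀ j : ℤ, pact (sg k) (hz m ((k : ℕ) + 2) j) = hz m ((k : ℕ) + 2) j := fun j =>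
    pact_hz k _ j (by omega)
  have hx : hz m ((k : ℕ) + 1) 1 = hz m k 1 + xv m k := by
    have := hz_succ (m := m) k 1
    rw [sub_self, hz_zero_right, mul_one] at this
    exact this
  have hy : hz m ((k : ℕ) + 2) 1 = hz m ((k : ℕ) + 1) 1 + xv m ((k : ℕ) + 1) := by
    have := hz_succ (m := m) ((k : ℕ) + 1) 1
    rw [sub_self, hz_zero_right, mul_one] at this
    exact this
  have e : r3 m ((k : ℕ) + 1) ((k : ℕ) + 1) ((k : ℕ) + 2) (a + 1) =
      (hz m ((k : ℕ) + 2) 1 - (hz m ((k : ℕ) + 1) 1 - hz m k 1)) *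
        (hz m k 1 * hz m ((k : ℕ) + 1) ((a : ℤ) + 1) - hz m k ((a : ℤ) + 2)) -
      (hz m k 2 * hz m ((k : ℕ) + 1) ((a : ℤ) + 1) - hz m k ((a : ℤ) + 3)) := by
    have h2 := hz_succ (m := m) k 2
    have h3 := hz_succ (m := m) k ((a : ℤ) + 2)
    have h4 := hz_succ (m := m) k ((a : ℤ) + 3)
    have e1 : (2 : ℤ) - 1 = 1 := by norm_num
    have e2 : (a : ℤ) + 2 - 1 = (a : ℤ) + 1 := by ring
    have e3 : (a : ℤ) + 3 - 1 = (a : ℤ) + 2 := by ring
    rw [e1] at h2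
    rw [e2] at h3
    rw [e3] at h4
    have e4 : ((a + 1 : ℕ) : ℤ) = (a : ℤ) + 1 := by push_cast; ring
    have e5 : (a : ℤ) + 1 + 1 = (a : ℤ) + 2 := by ring
    have e6 : (a : ℤ) + 1 + 2 = (a : ℤ) + 3 := by ring
    unfold r3
    rw [e4, e5, e6, h4, h3, h2, hx]
    ring
  rw [e, dd1_sub, dd1_mul, dd1_sub, dd1_sub, dd1_sub, dd1_sub,
    dd1_mul_of_inv k _ _ (hA 1), dd1_mul_of_inv k _ _ (hA 2), dd1_hz, dd1_hz,
    dd1_eq_zero_of_inv k _ (hC 1), dd1_eq_zero_of_inv k _ (hA 1),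
    dd1_eq_zero_of_inv k _ (hA ((a : ℤ) + 2)), dd1_eq_zero_of_inv k _ (hA ((a : ℤ) + 3)),
    map_sub, map_sub, hA, hC]
  have hp : pact (sg k) (hz m ((k : ℕ) + 1) 1) = hz m ((k : ℕ) + 2) 1 - xv m k := by
    have h1 := dd1_spec k (hz m ((k : ℕ) + 1) 1)
    rw [dd1_hz, sub_self, hz_zero_right, mul_one] at h1
    have h2 : (xv m (k : ℕ) : Pol m) = X k.castSucc := by
      have h := k.2
      unfold xv
      rw [dif_pos (by omega)]
      rfl
    have h3 : (xv m ((k : ℕ) + 1) : Pol m) = X k.succ := by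
      have h := k.2
      unfold xv
      rw [dif_pos (by omega)]
      rfl
    rw [hy, h2, h3]
    unfold rt at h1
    linear_combination h1
  have e7 : (a : ℤ) + 1 - 1 = a := by ring
  rw [hp, sub_self, hz_zero_right, e7, hx]
  ring

/-! ### positivity -/

theorem PP_r3 {p q r a : ℕ} (hpr : p ≤ r) (hqr : q ≤ r) (hq : r ≤ q + 1) (hp : r ≤ p + a + 1)
    (ha : 1 ≤ a) : PP (r3 m p q r a) := by
  intro x
  apply NN_of_Om
  have h : Om m (act m (r3 m p q r a) (bas x)) =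
      rib [((Sj m p, (a : ℤ)) : Bl (Fin (m + 1))), (Sj m q, 1), (Sj m r, 1)] (wd (om x)) := by
    unfold r3
    rw [rib_cons, rib_cons, rib_single, rib_cons, rib_single, rib_single, rib_single]
    simp only [map_sub, LinearMap.sub_apply, act_mul_apply, Om_act_hz, Om_bas,
      Module.End.mul_apply]
    have e : (a : ℤ) + 1 + 1 = a + 2 := by ring
    rw [e]
    rfl
  rw [h]
  refine rib_pos (X := Finset.univ)
    (L := [((Sj m p, (a : ℤ)) : Bl (Fin (m + 1))), (Sj m q, 1), (Sj m r, 1)])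
    ⟨?_, ?_, ?_, ?_, ?_, ?_, trivial⟩ ?_ (wd_mem _ (om_nodup x) (om_toFinset x)) (WN.wd _)
  · show Sj m p ⊆ (if (1 : ℤ) = 1 then Sj m r else Sj m q)
    rw [if_pos rfl]
    exact Sj_mono hpr
  · show (1 : ℤ) ≤ a
    exact_mod_cast ha
  · have h := card_Sj_sdiff p r (Finset.univ : Finset (Fin (m + 1)))
    show ((((if (1 : ℤ) = 1 then Sj m r else Sj m q) \ Sj m p) ∩ Finset.univ).card : ℤ) ≤
      (a : ℤ) + ((if (1 : ℤ) = 1 then 0 + 1 else 0 : ℕ) : ℤ)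
    rw [if_pos rfl, if_pos rfl]
    push_cast
    omega
  · exact Sj_mono hqr
  · show (1 : ℤ) ≤ 1
    norm_num
  · have h := card_Sj_sdiff q r (Finset.univ : Finset (Fin (m + 1)))
    show (((Sj m r \ Sj m q) ∩ Finset.univ).card : ℤ) ≤ 1 + ((0 : ℕ) : ℤ)
    push_cast
    omega
  · show (1 : ℤ) ≤ 1
    exact le_rfl

/-! ### the codes -/

lemma r_isSchub_12 (i : ℕ) (h : i + 3 ≤ m) :
    IsSchub (vb m [(i, 1), (i + 1, 2)]) (r2 m (i + 2) (i + 2) 2) := by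
  have h1 := isSchub_pb (m := m) [(i, 1), (i + 1, 2)] ⟨by simp, by simp, by simp, by omega⟩
  have h2 : pb m [(i, 1), (i + 1, 2)] = r2 m (i + 2) (i + 2) 2 := by
    rw [pb_cons, if_pos (by simp), pb_single, pb_single]
    have g1 := hz_succ (m := m) (i + 1) 1
    have g3 := hz_succ (m := m) (i + 1) 3
    unfold r2
    norm_num [add_assoc, hz_zero_right] at g1 g3 ⊢
    linear_combination g3 - hz m (i + 2) 2 * g1
  rwa [h2] at h1

lemma r_isSchub_13 (i : ℕ) (h : i + 4 ≤ m) :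
    IsSchub (vb m [(i, 1), (i + 1, 3)]) (r2 m (i + 2) (i + 2) 3) := by
  have h1 := isSchub_pb (m := m) [(i, 1), (i + 1, 3)] ⟨by simp, by simp, by simp, by omega⟩
  have h2 : pb m [(i, 1), (i + 1, 3)] = r2 m (i + 2) (i + 2) 3 := by
    rw [pb_cons, if_pos (by simp), pb_single, pb_single]
    have g1 := hz_succ (m := m) (i + 1) 1
    have g3 := hz_succ (m := m) (i + 1) 4
    unfold r2
    norm_num [add_assoc, hz_zero_right] at g1 g3 ⊢
    linear_combination g3 - hz m (i + 2) 3 * g1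
  rwa [h2] at h1

lemma r_isSchub_112 (i : ℕ) (h : i + 4 ≤ m) : IsSchub (vb m [(i, 1), (i + 1, 1), (i + 2, 2)])
    (hz m (i + 1) 1 * (hz m (i + 2) 1 * hz m (i + 3) 2 - hz m (i + 2) 3) -
      (hz m (i + 1) 2 * hz m (i + 3) 2 - hz m (i + 1) 4)) := by
  have h1 := isSchub_pb (m := m) [(i, 1), (i + 1, 1), (i + 2, 2)] ⟨by simp, by simp, by simp,
    by simp, by simp, by omega⟩
  have h2 : pb m [(i, 1), (i + 1, 1), (i + 2, 2)] =
      hz m (i + 1) 1 * (hz m (i + 2) 1 * hz m (i + 3) 2 - hz m (i + 2) 3) -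
      (hz m (i + 1) 2 * hz m (i + 3) 2 - hz m (i + 1) 4) := by
    rw [pb_cons, if_pos (by simp), pb_cons, if_pos (by simp), pb_cons, if_pos (by simp),
      pb_single, pb_single, pb_single]
    norm_num [add_assoc]
  rwa [h2] at h1

/-- code (1,2,1) -/
theorem r_isSchub_121 (i : ℕ) (h : i + 3 ≤ m) :
    IsSchub (vb m [(i, 1), (i + 1, 2), (i + 2, 1)]) (r3 m (i + 2) (i + 2) (i + 3) 2) := by
  have hinv : inv (vb m [(i, 1), (i + 1, 2), (i + 2, 1)]) = 3 + 1 :=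
    (inv_vb_window 3 i h [(0, 1), (1, 2), (2, 1)] (by decide)).trans (by decide)
  have c1 : ∀ k : Fin m, (k : ℕ) = i + 1 →
      IsSchub (vb m [(i, 1), (i + 1, 2), (i + 2, 1)] * sg k)
        (dd1 k (r3 m (i + 2) (i + 2) (i + 3) 2)) := by
    intro k hk
    have hmul : vb m [(i, 1), (i + 1, 2), (i + 2, 1)] * sg k =
        vb m [(i, 1), (i + 1, 1), (i + 2, 1)] :=
      vb_mul_window 3 i h [(0, 1), (1, 2), (2, 1)] [(0, 1), (1, 1), (2, 1)] (by decide)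
        (by decide) 1 (by decide) (by decide) k (by omega)
    have hp := dd1_r3_pq (m := m) k (a := 1)
    rw [hk] at hp
    rw [hmul]
    have e : dd1 k (r3 m (i + 2) (i + 2) (i + 3) 2) = hz m (i + 1) 1 * (hz m (i + 2) 1 *
        hz m (i + 3) 1 - hz m (i + 2) 2) - (hz m (i + 1) 2 * hz m (i + 3) 1 - hz m (i + 1) 3) := by
      refine Eq.trans hp ?_
      norm_num [add_assoc]
    rw [e]
    exact isSchub_111 i h
  have c2 : ∀ k : Fin m, (k : ℕ) = i + 2 →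
      IsSchub (vb m [(i, 1), (i + 1, 2), (i + 2, 1)] * sg k)
        (dd1 k (r3 m (i + 2) (i + 2) (i + 3) 2)) := by
    intro k hk
    have hmul : vb m [(i, 1), (i + 1, 2), (i + 2, 1)] * sg k = vb m [(i, 1), (i + 1, 2)] :=
      vb_mul_window 3 i h [(0, 1), (1, 2), (2, 1)] [(0, 1), (1, 2)] (by decide)
        (by decide) 2 (by decide) (by decide) k (by omega)
    have hp := dd1_r3_r (m := m) k (p := i + 2) (q := i + 2) (a := 2) (by omega) (by omega)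
    rw [hk] at hp
    have e : dd1 k (r3 m (i + 2) (i + 2) (i + 3) 2) = r2 m (i + 2) (i + 2) 2 := hp
    rw [hmul, e]
    exact r_isSchub_12 i h
  refine isSchub_weak _ _ 3 hinv (r3_homog _ _ _ 2) (fun k => ?_) ⟨⟨i + 1, by omega⟩, c1 _ rfl⟩
  by_cases h1 : (k : ℕ) = i + 1
  · exact .inr (c1 k h1)
  by_cases h2 : (k : ℕ) = i + 2
  · exact .inr (c2 k h2)
  exact .inl (dd1_r3_of_ne k (by omega) (by omega) (by omega))

/-- code (3,1) -/
theorem r_isSchub_31 (i : ℕ) (h : i + 3 ≤ m) :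
    IsSchub (vb m [(i, 3), (i + 1, 1)]) (r2 m (i + 1) (i + 2) 3) := by
  have hinv : inv (vb m [(i, 3), (i + 1, 1)]) = 3 + 1 :=
    (inv_vb_window 3 i h [(0, 3), (1, 1)] (by decide)).trans (by decide)
  have c0 : ∀ k : Fin m, (k : ℕ) = i →
      IsSchub (vb m [(i, 3), (i + 1, 1)] * sg k) (dd1 k (r2 m (i + 1) (i + 2) 3)) := by
    intro k hk
    have hmul : vb m [(i, 3), (i + 1, 1)] * sg k = vb m [(i, 1), (i + 1, 2)] :=
      vb_mul_window 3 i h [(0, 3), (1, 1)] [(0, 1), (1, 2)] (by decide)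
        (by decide) 0 (by decide) (by decide) k (by omega)
    have hp := dd1_r2_p (m := m) k (q := i + 2) (a := 2) (by omega)
    rw [hk] at hp
    have e : dd1 k (r2 m (i + 1) (i + 2) 3) = r2 m (i + 2) (i + 2) 2 := hp
    rw [hmul, e]
    exact r_isSchub_12 i h
  have c1 : ∀ k : Fin m, (k : ℕ) = i + 1 →
      IsSchub (vb m [(i, 3), (i + 1, 1)] * sg k) (dd1 k (r2 m (i + 1) (i + 2) 3)) := by
    intro k hk
    have hmul : vb m [(i, 3), (i + 1, 1)] * sg k = vb m [(i, 3)] :=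
      vb_mul_window 3 i h [(0, 3), (1, 1)] [(0, 3)] (by decide)
        (by decide) 1 (by decide) (by decide) k (by omega)
    have hp := dd1_r2_q (m := m) k (p := i + 1) (a := 3) (by omega)
    rw [hk] at hp
    have e : dd1 k (r2 m (i + 1) (i + 2) 3) = hz m (i + 1) 3 := hp
    rw [hmul, e]
    exact isSchub_3 i h
  refine isSchub_weak _ _ 3 hinv (r2_homog _ _ 3) (fun k => ?_) ⟨⟨i, by omega⟩, c0 _ rfl⟩
  by_cases h1 : (k : ℕ) = i
  · exact .inr (c0 k h1)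
  by_cases h2 : (k : ℕ) = i + 1
  · exact .inr (c1 k h2)
  exact .inl (dd1_r2_of_ne k (by omega) (by omega))

/-- code (3,1,1) -/
theorem r_isSchub_311 (i : ℕ) (h : i + 3 ≤ m) :
    IsSchub (vb m [(i, 3), (i + 1, 1), (i + 2, 1)]) (r3 m (i + 1) (i + 2) (i + 3) 3) := by
  have hinv : inv (vb m [(i, 3), (i + 1, 1), (i + 2, 1)]) = 4 + 1 :=
    (inv_vb_window 3 i h [(0, 3), (1, 1), (2, 1)] (by decide)).trans (by decide)
  have c0 : ∀ k : Fin m, (k : ℕ) = i →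
      IsSchub (vb m [(i, 3), (i + 1, 1), (i + 2, 1)] * sg k)
        (dd1 k (r3 m (i + 1) (i + 2) (i + 3) 3)) := by
    intro k hk
    have hmul : vb m [(i, 3), (i + 1, 1), (i + 2, 1)] * sg k =
        vb m [(i, 1), (i + 1, 2), (i + 2, 1)] :=
      vb_mul_window 3 i h [(0, 3), (1, 1), (2, 1)] [(0, 1), (1, 2), (2, 1)] (by decide)
        (by decide) 0 (by decide) (by decide) k (by omega)
    have hp := dd1_r3_p (m := m) k (q := i + 2) (r := i + 3) (a := 2) (by omega) (by omega)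
    rw [hk] at hp
    have e : dd1 k (r3 m (i + 1) (i + 2) (i + 3) 3) = r3 m (i + 2) (i + 2) (i + 3) 2 := hp
    rw [hmul, e]
    exact r_isSchub_121 i h
  have c2 : ∀ k : Fin m, (k : ℕ) = i + 2 →
      IsSchub (vb m [(i, 3), (i + 1, 1), (i + 2, 1)] * sg k)
        (dd1 k (r3 m (i + 1) (i + 2) (i + 3) 3)) := by
    intro k hk
    have hmul : vb m [(i, 3), (i + 1, 1), (i + 2, 1)] * sg k = vb m [(i, 3), (i + 1, 1)] :=
      vb_mul_window 3 i h [(0, 3), (1, 1), (2, 1)] [(0, 3), (1, 1)] (by decide)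
        (by decide) 2 (by decide) (by decide) k (by omega)
    have hp := dd1_r3_r (m := m) k (p := i + 1) (q := i + 2) (a := 3) (by omega) (by omega)
    rw [hk] at hp
    have e : dd1 k (r3 m (i + 1) (i + 2) (i + 3) 3) = r2 m (i + 1) (i + 2) 3 := hp
    rw [hmul, e]
    exact r_isSchub_31 i h
  refine isSchub_weak _ _ 4 hinv (r3_homog _ _ _ 3) (fun k => ?_) ⟨⟨i, by omega⟩, c0 _ rfl⟩
  by_cases h0 : (k : ℕ) = i
  · exact .inr (c0 k h0)
  by_cases h2 : (k : ℕ) = i + 2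
  · exact .inr (c2 k h2)
  by_cases h1 : (k : ℕ) = i + 1
  · have hp := dd1_r3_q (m := m) k (p := i + 1) (a := 3) (by omega)
    rw [h1] at hp
    exact .inl hp
  exact .inl (dd1_r3_of_ne k (by omega) (by omega) (by omega))

/-- code (1,3,1) -/
theorem r_isSchub_131 (i : ℕ) (h : i + 4 ≤ m) :
    IsSchub (vb m [(i, 1), (i + 1, 3), (i + 2, 1)]) (r3 m (i + 2) (i + 2) (i + 3) 3) := by
  have hinv : inv (vb m [(i, 1), (i + 1, 3), (i + 2, 1)]) = 4 + 1 :=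
    (inv_vb_window 4 i h [(0, 1), (1, 3), (2, 1)] (by decide)).trans (by decide)
  have c1 : ∀ k : Fin m, (k : ℕ) = i + 1 →
      IsSchub (vb m [(i, 1), (i + 1, 3), (i + 2, 1)] * sg k)
        (dd1 k (r3 m (i + 2) (i + 2) (i + 3) 3)) := by
    intro k hk
    have hmul : vb m [(i, 1), (i + 1, 3), (i + 2, 1)] * sg k =
        vb m [(i, 1), (i + 1, 1), (i + 2, 2)] :=
      vb_mul_window 4 i h [(0, 1), (1, 3), (2, 1)] [(0, 1), (1, 1), (2, 2)] (by decide)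
        (by decide) 1 (by decide) (by decide) k (by omega)
    have hp := dd1_r3_pq (m := m) k (a := 2)
    rw [hk] at hp
    rw [hmul]
    have e : dd1 k (r3 m (i + 2) (i + 2) (i + 3) 3) = hz m (i + 1) 1 * (hz m (i + 2) 1 *
        hz m (i + 3) 2 - hz m (i + 2) 3) - (hz m (i + 1) 2 * hz m (i + 3) 2 - hz m (i + 1) 4) := by
      refine Eq.trans hp ?_
      norm_num [add_assoc]
    rw [e]
    exact r_isSchub_112 i h
  have c2 : ∀ k : Fin m, (k : ℕ) = i + 2 →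
      IsSchub (vb m [(i, 1), (i + 1, 3), (i + 2, 1)] * sg k)
        (dd1 k (r3 m (i + 2) (i + 2) (i + 3) 3)) := by
    intro k hk
    have hmul : vb m [(i, 1), (i + 1, 3), (i + 2, 1)] * sg k = vb m [(i, 1), (i + 1, 3)] :=
      vb_mul_window 4 i h [(0, 1), (1, 3), (2, 1)] [(0, 1), (1, 3)] (by decide)
        (by decide) 2 (by decide) (by decide) k (by omega)
    have hp := dd1_r3_r (m := m) k (p := i + 2) (q := i + 2) (a := 3) (by omega) (by omega)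
    rw [hk] at hp
    have e : dd1 k (r3 m (i + 2) (i + 2) (i + 3) 3) = r2 m (i + 2) (i + 2) 3 := hp
    rw [hmul, e]
    exact r_isSchub_13 i h
  refine isSchub_weak _ _ 4 hinv (r3_homog _ _ _ 3) (fun k => ?_) ⟨⟨i + 1, by omega⟩, c1 _ rfl⟩
  by_cases h1 : (k : ℕ) = i + 1
  · exact .inr (c1 k h1)
  by_cases h2 : (k : ℕ) = i + 2
  · exact .inr (c2 k h2)
  exact .inl (dd1_r3_of_ne k (by omega) (by omega) (by omega))

theorem EE_311 (i : ℕ) (h : i + 3 ≤ m) : EE (vb m [(i, 3), (i + 1, 1), (i + 2, 1)]) :=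
  ⟨_, r_isSchub_311 i h, PP_r3 (by omega) (by omega) (by omega) (by omega) (by omega)⟩

theorem EE_131 (i : ℕ) (h : i + 4 ≤ m) : EE (vb m [(i, 1), (i + 1, 3), (i + 2, 1)]) :=
  ⟨_, r_isSchub_131 i h, PP_r3 (by omega) (by omega) (by omega) (by omega) (by omega)⟩

end H50R
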