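import Pool.Agent.Helper50.CSB.Defs

/-!
# From words to polynomials
-/

namespace H50R

open H45C Equiv MvPolynomial

variable {m : ℕ}

/-- consecutive blocks are adjacent -/
def Adj : List (ℕ × ℕ) → Prop
  | [] => True
  | [_] => True
  | b :: c :: L => c.1 = b.1 + b.2 ∧ Adj (c :: L)

/-- the end of the last block -/
def en : List (ℕ × ℕ) → ℕ
  | [] => 0
  | [b] => b.1 + b.2
  | _ :: c :: L => en (c :: L)

lemma adj_merge {b c : ℕ × ℕ} {L : List (ℕ × ℕ)} (h : Adj (b :: c :: L)) :
    Adj ((b.1, b.2 + c.2) :: L) := by
  cases L with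
  | nil => trivial
  | cons d L =>
    obtain ⟨h1, h2, h3⟩ := h
    refine ⟨?_, h3⟩
    change d.1 = b.1 + (b.2 + c.2)
    omega

lemma en_merge {b c : ℕ × ℕ} {L : List (ℕ × ℕ)} (h : Adj (b :: c :: L)) :
    en ((b.1, b.2 + c.2) :: L) = en (c :: L) := by
  cases L with
  | nil =>
    obtain ⟨h1, -⟩ := h
    change b.1 + (b.2 + c.2) = c.1 + c.2
    omega
  | cons d L => rfl

/-- for adjacent blocks, `pb` acts by the ribbon operator (`Om_act_hz`, `act_mul_apply`) -/
theorem Om_act_pb (L : List (ℕ × ℕ)) (hL : Adj L) (z : VV m) :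
    Om m (act m (pb m L) z) =
      rib (L.map fun b => ((Sj m (b.1 + 1), (b.2 : ℤ)) : Bl (Fin (m + 1)))) (Om m z) := by
  induction hn : L.length using Nat.strong_induction_on generalizing L z with
  | _ n ih =>
    match L, hL, hn with
    | [], _, _ =>
      rw [pb_nil, map_one, Module.End.one_apply, List.map_nil, rib_nil, Module.End.one_apply]
    | [b], _, _ =>
      rw [pb_single, Om_act_hz, List.map_cons, List.map_nil, rib_single]
    | b :: c :: L, hL, hn =>
      simp only [List.length_cons] at hn
      have h1 := fun z => ih (c :: L).length (by simp only [List.length_cons]; omega) (c :: L) hL.2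
        z rfl
      have h2 := ih ((b.1, b.2 + c.2) :: L).length (by simp only [List.length_cons]; omega) _
        (adj_merge hL) z rfl
      rw [pb_cons, if_pos hL.1, map_sub, LinearMap.sub_apply, map_sub, act_mul_apply, Om_act_hz,
        h1, h2]
      simp only [List.map_cons]
      rw [rib_cons, LinearMap.sub_apply, Module.End.mul_apply]
      simp only [Nat.cast_add]

lemma pb_append {L : List (ℕ × ℕ)} (hL : Adj L) (hne : L ≠ []) (c : ℕ × ℕ) (M : List (ℕ × ℕ))
    (hgap : c.1 ≠ en L) : pb m (L ++ c :: M) = pb m L * pb m (c :: M) := by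
  induction hn : L.length using Nat.strong_induction_on generalizing L with
  | _ n ih =>
    match L, hL, hne, hgap, hn with
    | [], _, hne, _, _ => exact absurd rfl hne
    | [b], _, _, hgap, _ =>
      have hg : ¬ c.1 = b.1 + b.2 := hgap
      rw [List.singleton_append, pb_cons, if_neg hg, sub_zero, pb_single]
    | a :: b :: L, hL, _, hgap, hn =>
      simp only [List.length_cons] at hn
      have h1 := ih (b :: L).length (by simp only [List.length_cons]; omega) (L := b :: L) hL.2
        (by simp) hgap rfl
      have h2 := ih ((a.1, a.2 + b.2) :: L).length (by simp only [List.length_cons]; omega)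
        (L := (a.1, a.2 + b.2) :: L) (adj_merge hL) (by simp)
        (by rw [en_merge hL]; exact hgap) rfl
      rw [List.cons_append, List.cons_append] at *
      rw [pb_cons, if_pos hL.1, pb_cons, if_pos hL.1, h1, h2]
      ring

lemma good_left {L M : List (ℕ × ℕ)} (h : Good m (L ++ M)) : Good m L := by
  match L, h with
  | [], _ => trivial
  | [b], h =>
    cases M with
    | nil => exact h
    | cons c M =>
      obtain ⟨h1, h2, h3⟩ := h
      refine ⟨h1, ?_⟩
      have h4 : c.1 ≤ m := by
        cases M with
        | nil => exact (Nat.le_add_right _ _).trans h3.2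
        | cons d M =>
          exact le_m h3
      omega
  | b :: c :: L, h =>
    obtain ⟨h1, h2, h3⟩ := h
    exact ⟨h1, h2, good_left (L := c :: L) h3⟩
where
  le_m {c d : ℕ × ℕ} {M : List (ℕ × ℕ)} (h : Good m (c :: d :: M)) : c.1 ≤ m := by
    induction M generalizing c d with
    | nil =>
      obtain ⟨h1, h2, h3, h4⟩ := h
      omega
    | cons e M ih =>
      obtain ⟨h1, h2, h3⟩ := h
      have := ih h3
      omega

lemma good_right {L M : List (ℕ × ℕ)} (h : Good m (L ++ M)) : Good m M := by
  match L, h with
  | [], h => exact h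
  | [b], h =>
    cases M with
    | nil => trivial
    | cons c M => exact h.2.2
  | b :: c :: L, h => exact good_right (L := c :: L) h.2.2

lemma adj_snoc {L : List (ℕ × ℕ)} (hL : Adj L) (hne : L ≠ []) {c : ℕ × ℕ} (hc : c.1 = en L) :
    Adj (L ++ [c]) := by
  match L, hL, hne, hc with
  | [], _, hne, _ => exact absurd rfl hne
  | [b], _, _, hc => exact ⟨hc, trivial⟩
  | a :: b :: L, hL, _, hc => exact ⟨hL.1, adj_snoc (L := b :: L) hL.2 (by simp) hc⟩

/-- if all maximal chains of adjacent blocks act nonnegatively, so does `pb m B` -/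
theorem PP_pb_of_adj (h : ∀ L : List (ℕ × ℕ), L ≠ [] → Adj L → Good m L → PP (pb m L))
    (B : List (ℕ × ℕ)) (hB : Good m B) : PP (pb m B) := by
  have key : ∀ (M L : List (ℕ × ℕ)), L ≠ [] → Adj L → Good m (L ++ M) → PP (pb m (L ++ M)) := by
    intro M
    induction M with
    | nil =>
      intro L hne hL hG
      rw [List.append_nil] at hG ⊢
      exact h L hne hL hG
    | cons c M ih =>
      intro L hne hL hG
      by_cases hc : c.1 = en L
      · have h1 : L ++ c :: M = (L ++ [c]) ++ M := by simp
        rw [h1] at hG ⊢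
        exact ih _ (by simp) (adj_snoc hL hne hc) hG
      · rw [pb_append hL hne c M hc]
        exact (h L hne hL (good_left hG)).mul (ih [c] (by simp) trivial (good_right hG))
  cases B with
  | nil =>
    rw [pb_nil]
    exact PP.one
  | cons b B => exact key B [b] (by simp) trivial hB

end H50R
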